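import Pool.Agent.Q310.BT.Main

/-!
# Baumgartner types with a common index set under `PFA⁺`

Let `S ⊆ ω₁` be stationary and let `x`, `y` be two ladder systems on `S`.  `PFA⁺`, and already its
weakening `FA⁺(σ-closed)`, gives a stationary `T ⊆ S` such that `x a ↦ y a` (`a ∈ T`) is an
isomorphism of the Baumgartner types `{x a : a ∈ T}` and `{y a : a ∈ T}`.  These are not
σ-scattered, so the Baumgartner types of `x` and `y` have a common suborder which is a Baumgartner
type.

Definitions used (all in `Pool.Agent.Q310.BT` unless said otherwise):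
* `Stat`: stationary subsets of a linear order (here: of `ω₁`);
* `Lad S x`: for every `a ∈ S`, `x a` is a strictly increasing sequence cofinal in `a`;
* `BType S x`: the set of all `x a`, `a ∈ S`, with the lexicographic order;
* `SigmaScattered L`: `L` is a countable union of suborders containing no copy of `ℚ`;
* `FIn X p a`, `FClub X p`, `FStat X p`: `p` forces `a` into the subset of `ω₁` named by `X`,
  forces that set to be closed unbounded, to be stationary;
* `FAplus W Γ`: the axiom `FA⁺(Γ)`, where `W` plays the role of `ω₁`;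
* `Pool.Agent.Helper647.FU.Proper`: proper posets; `SigmaClosed`: σ-closed posets.
-/

set_option autoImplicit false

open Set Cardinal Pool.Agent.IncSeq
open Pool.Agent.Q310.BT
open Pool.Agent.Helper647.FU (Proper)

namespace Pool.Agent.Results.MP_f5c9aa_lc.CommonStationarySuborder

/-- The first uncountable ordinal. -/
abbrev Om : Type := (Cardinal.aleph 1).ord.ToType

/-- `PFA⁺`. -/
def PFAplus : Prop := FAplus Om Proper

/-- `FA⁺` for the σ-closed posets. -/
def FAplusSigmaClosed : Prop := FAplus Om SigmaClosed

theorem om1_Om : Om1 Om := by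
  have h1 : ∀ a : Om, (Iio a).Countable := by
    intro a
    have h := Cardinal.mk_Iio_toType_ord_lt (c := Cardinal.aleph 1) a
    have h2 : Cardinal.mk (Iio a) ≤ Cardinal.aleph0 := by
      have h3 : Cardinal.aleph 1 = Order.succ Cardinal.aleph0 := by
        rw [← Cardinal.succ_aleph0]
      exact Order.lt_succ_iff.1 (lt_of_lt_of_eq h h3)
    exact Cardinal.le_aleph0_iff_set_countable.1 h2
  refine ⟨inferInstance, fun a => ?_, fun h => ?_⟩
  · refine ((h1 a).insert a).mono fun b hb => ?_
    rcases eq_or_lt_of_le (show b ≤ a from hb) with h | h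
    · exact Or.inl h
    · exact Or.inr h
  · have h5 : Cardinal.mk Om ≤ Cardinal.aleph0 := by
      have := Cardinal.le_aleph0_iff_set_countable.2 h
      rwa [Cardinal.mk_univ] at this
    have h4 : Cardinal.mk Om = Cardinal.aleph 1 := by
      simp [Om]
    rw [h4] at h5
    exact absurd h5 (not_le.2 Cardinal.aleph0_lt_aleph_one)

/-- `PFA⁺` implies `FA⁺(σ-closed)`, and `FA⁺(σ-closed)` implies: for any two ladder systems `x`,
`y` on a stationary set `S ⊆ ω₁` there is a stationary `T ⊆ S` such that `x a ↦ y a` is an order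
isomorphism from `{x a : a ∈ T}` to `{y a : a ∈ T}` (lexicographic order); the Baumgartner type
of `x` with index set `T` is not σ-scattered and embeds into the Baumgartner types of `x` and of
`y` with index set `S`. -/
theorem result :
    (PFAplus → FAplusSigmaClosed) ∧
    (FAplusSigmaClosed → ∀ (S : Set Om) (x y : Om → ℕ → Om), Stat S → Lad S x → Lad S y →
      ∃ T ⊆ S, Stat T ∧
        (∀ a ∈ T, ∀ b ∈ T, toLex (x a) < toLex (x b) ↔ toLex (y a) < toLex (y b)) ∧
        ¬ SigmaScattered (BType T x) ∧
        Nonempty (BType T x ↪o BType S x) ∧ Nonempty (BType T x ↪o BType S y)) := by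
  classical
  have hOm : Om1 Om := om1_Om
  have hne : Nonempty Om := by
    by_contra h
    rw [not_nonempty_iff] at h
    exact hOm.unc (by
      have : (univ : Set Om) = ∅ := Set.eq_empty_of_isEmpty _
      rw [this]; exact countable_empty)
  let hbot : OrderBot Om :=
    { bot := WellFounded.min (wellFounded_lt (α := Om)) univ ⟨hne.some, mem_univ _⟩
      bot_le := fun a => WellFounded.min_le _ (mem_univ a) }
  have hW : #Om ≤ ℵ₁ := by simp [Om]
  refine ⟨fun h P _ _ hP => h P (proper_of_sigmaClosed hP), ?_⟩
  intro hFA S x y hS hx hy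
  obtain ⟨T, hTS, hT, hxy⟩ := main hW hFA hS hx hy
  have hxT : Lad T x := ⟨fun a ha => hx.mono a (hTS ha), fun a ha => hx.lt a (hTS ha),
    fun a ha => hx.cof a (hTS ha)⟩
  refine ⟨T, hTS, hT, hxy, not_sigmaScattered hxT (not_NS_of_stat hT), ?_, ?_⟩
  · refine ⟨OrderEmbedding.ofStrictMono
      (fun z => (⟨z.1, z.2.choose, hTS z.2.choose_spec.1, z.2.choose_spec.2⟩ : BType S x)) ?_⟩
    intro z w h
    exact h
  · refine ⟨OrderEmbedding.ofStrictMono
      (fun z => (⟨toLex (y z.2.choose), z.2.choose, hTS z.2.choose_spec.1, rfl⟩ : BType S y)) ?_⟩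
    intro z w h
    have h' : z.1 < w.1 := h
    rw [z.2.choose_spec.2, w.2.choose_spec.2] at h'
    exact (hxy _ z.2.choose_spec.1 _ w.2.choose_spec.1).1 h'

end Pool.Agent.Results.MP_f5c9aa_lc.CommonStationarySuborder
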